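import Pool.Agent.helper84.LQ.SpecH
import Pool.Agent.helper18.LP.MVU

set_option autoImplicit false

/-!
# Row lq:MVQ (MP_07c750_an): the local leaf with windows at all scales is a Moebius image of a fixed set
-/

open scoped MatrixGroups ContDiff Topology UpperHalfPlane ComplexConjugate
open UpperHalfPlane MeasureTheory Filter Set

namespace Pool.Agent.LP

open Pool.Agent.RS
open Pool.Agent.MS (bq BB BA SF pf)
open Pool.Agent.HV (FW)
open Pool.Agent.EN (XG MG mkX mkM fl pr)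
open Pool.Agent.ER (Low LowJ)

noncomputable section

theorem MVQ_proof (hMO2 : MO2_stmt) (hGLC : RS.GLC_stmt) : MVQ_stmt := by
  intro Γ b w τ x V G m A h z γ hb hb1 hw hτ hx hV hrel hd
  obtain ⟨-, -, -, u, τ', x', hu2, hτ', hx', hM, hVeq⟩ := hMO2 (b / 1000) w τ x V (by positivity) (by linarith) hw hτ hx hV
  have hm0 : (0 : ℝ) ≤ m := Nat.cast_nonneg m
  have hrel' : (γ : SL(2, ℝ)) * h = z * (lM w * aM τ * nM x) := by
    rw [hrel]
    simp only [mul_assoc]
  refine ⟨u, ⟨hu2, fun j hj1 hj2 => ?_⟩, hVeq⟩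
  have hj0 : (0 : ℝ) ≤ j := Nat.cast_nonneg j
  have hjG : (j : ℝ) ≤ G := by exact_mod_cast hj2
  exact MVU_fw hGLC Γ (A j) b (Real.exp (-(j * m))) (((G : ℝ) - j) * m) τ' x' V u h z _ γ hb hb1 (Real.exp_pos _).le
    (Real.exp_le_one_iff.2 (neg_nonpos.2 (mul_nonneg hj0 hm0))) (mul_nonneg (by linarith) hm0) (by linarith) (by linarith) hrel' hM (hd j hj1 hj2)

end

end Pool.Agent.LP
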